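import Pool.Agent.Lib.MP_ab86ea_al.U.Final

set_option autoImplicit false

namespace Pool.Agent.Results.MP_ab86ea_al.OStarEmbedding

universe u

/-- Invariance of an order relation under multiplication on both sides. -/
def Invariant (G : Type u) [Group G] (le : G → G → Prop) : Prop :=
  ∀ a b c : G, le a b → le (c * a) (c * b) ∧ le (a * c) (b * c)

/-- A partial order on the group `G`: a partial order on the set `G` that is invariant under
multiplication on both sides. -/
def IsGroupPartialOrder (G : Type u) [Group G] (le : G → G → Prop) : Prop :=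
  (∀ a, le a a) ∧ (∀ a b, le a b → le b a → a = b) ∧ (∀ a b c, le a b → le b c → le a c) ∧
    Invariant G le

/-- A total order on the group `G` that makes it an o-group. -/
def IsGroupTotalOrder (G : Type u) [Group G] (le : G → G → Prop) : Prop :=
  IsGroupPartialOrder G le ∧ ∀ a b, le a b ∨ le b a

/-- `G` is orderable. -/
def Orderable (G : Type u) [Group G] : Prop := ∃ le : G → G → Prop, IsGroupTotalOrder G le

/-- `G` is an O*-group: every partial order on `G` extends to a total order on `G` that makes `G`
an o-group. -/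
def OStarGroup (G : Type u) [Group G] : Prop :=
  ∀ r : G → G → Prop, IsGroupPartialOrder G r →
    ∃ s : G → G → Prop, IsGroupTotalOrder G s ∧ ∀ a b, r a b → s a b

/-- Every orderable group can be embedded in an O*-group. -/
theorem result (H : Type u) [Group H] (hH : Orderable H) :
    ∃ (G : Type u) (_ : Group G), OStarGroup G ∧ ∃ f : H →* G, Function.Injective f := by
  obtain ⟨le, ⟨⟨-, hanti, htrans, hinv⟩, htot⟩⟩ := hH
  obtain ⟨G, iG, f, hf, hG⟩ := Pool.Agent.KokorinU.final H
    ⟨le, hanti, htrans, htot, fun a b c d h => (hinv _ _ d (hinv _ _ c h).1).2⟩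
  refine ⟨G, iG, ?_, f, hf⟩
  rintro r ⟨hr, ha, ht, hi⟩
  obtain ⟨s, hs1, hs2, hs3, hs4, hs5⟩ := hG r hr ha ht
    (fun a b c d h => (hi _ _ d (hi _ _ c h).1).2)
  refine ⟨s, ⟨⟨fun a => (hs4 a a).elim id id, hs2, hs3, fun a b c h => ⟨?_, ?_⟩⟩, hs4⟩, hs1⟩
  · simpa using hs5 a b c 1 h
  · simpa using hs5 a b 1 c h

end Pool.Agent.Results.MP_ab86ea_al.OStarEmbedding
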